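import Mathlib
import Pool.Agent.Y323.KK.Lin

/-!
# Close II_1 factors have equal coupling constants

There is a universal `δ > 0` such that II_1 factors `M, N` on one Hilbert space `H` (of any size)
with Kadison-Kastler distance less than `δ` satisfy `dim_M(H) = dim_N(H)`; no bound on the
coupling constants is assumed.

Idea of the proof: commutants of all amplifications `M ⊗ 1_n`, `N ⊗ 1_n` are uniformly close
(bounded derivations of C*-algebras are inner, with a universal constant). A maximal abelian
subalgebra `A` of `M` can be moved into `N` by a unitary close to `1`, where it is again maximal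
abelian and the two traces agree on it. If `L²(M)^m` embeds in `H^n`, the right multiplications by
unitaries of `A` together with the signs of the `m` summands form a commutative group in the
commutant of `M ⊗ 1_n`; it can be moved into the commutant of `N ⊗ 1_n` by a unitary close to `1`
that commutes with `A`, and the images of the trace vectors of `M` are then trace vectors of `N`.
Hence `L²(N)^m` embeds in `H^n`.
-/

set_option autoImplicit false

open scoped InnerProductSpace

namespace Pool.Agent.Results.MP_41729c_an.UniversalDistance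

open Pool.Agent.H467F

section defs

variable {H : Type} [NormedAddCommGroup H] [InnerProductSpace ℂ H] [CompleteSpace H]

/-- The Kadison-Kastler distance: the Hausdorff distance of the closed unit balls of `M` and `N` in
the operator norm. -/
noncomputable def kkDist (M N : VonNeumannAlgebra H) : ℝ :=
  Metric.hausdorffDist {x : H →L[ℂ] H | x ∈ M ∧ ‖x‖ ≤ 1} {y : H →L[ℂ] H | y ∈ N ∧ ‖y‖ ≤ 1}

/-- The action of an element `x` of `M` on a vector. -/
def act (M : VonNeumannAlgebra H) (x : Elt M) (ζ : H) : H := (x : H →L[ℂ] H) ζ

/-- `p` is a projection of `M`. -/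
def IsProj (M : VonNeumannAlgebra H) (p : Elt M) : Prop := star p = p ∧ p * p = p

/-- `⟪η, x η⟫ = τ (x p)` for all `x ∈ M`: equivalently (`p` a projection) `x p ↦ x η` is isometric
from `M p ⊆ L²(M, τ)` to `H`. -/
def IsImage (M : VonNeumannAlgebra H) (τ : Elt M → ℂ) (p : Elt M) (η : H) : Prop :=
  ∀ x : Elt M, ⟪η, act M x η⟫_ℂ = τ (x * p)

/-- `ξ` is orthogonal to the submodule generated by `η`. -/
def Orth (M : VonNeumannAlgebra H) (ξ η : H) : Prop := ∀ x : Elt M, ⟪ξ, act M x η⟫_ℂ = 0

/-- The submodules generated by the vectors `η i` have dense sum in `H`. -/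
def Total (M : VonNeumannAlgebra H) {I : Type} (η : I → H) : Prop :=
  (Submodule.span ℂ {ζ : H | ∃ i, ∃ x : Elt M, ζ = act M x (η i)}).topologicalClosure = ⊤

/-- `d ∈ [0, ∞]` is the Murray-von Neumann dimension of `H` as a left `M`-module, normalised by
`dim L²(M, τ) = 1`: `H` is isomorphic to a Hilbert space sum `⨁ i, L²(M, τ) p_i` with projections
`p_i ∈ M`, and `d = ∑ τ(p_i)`.  The vector `η_i ∈ H` is the image of `p_i`: `x p_i ↦ x η_i` is
isometric on `M p_i`, the submodules generated by the `η_i` are pairwise orthogonal, and their sum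
is dense. -/
def IsMvNDim (M : VonNeumannAlgebra H) (τ : Elt M → ℂ) (d : ENNReal) : Prop :=
  ∃ (I : Type) (p : I → Elt M) (η : I → H),
    (∀ i, IsProj M (p i)) ∧ (∀ i, IsImage M τ (p i) (η i)) ∧
    (∀ i j, i ≠ j → Orth M (η i) (η j)) ∧ Total M η ∧
    d = ∑' i, ENNReal.ofReal (τ (p i)).re

end defs

/-- **Main theorem.**  There is a universal `δ > 0` such that II_1 factors on one Hilbert space with
Kadison-Kastler distance less than `δ` have the same coupling constant. -/
theorem result : ∃ δ : ℝ, 0 < δ ∧
    ∀ (H : Type) [NormedAddCommGroup H] [InnerProductSpace ℂ H] [CompleteSpace H]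
      (M N : VonNeumannAlgebra H) (τ : Elt M → ℂ) (σ : Elt N → ℂ),
      IsIIOneFactor M τ → IsIIOneFactor N σ → kkDist M N < δ →
      ∀ dM dN : ENNReal, IsMvNDim M τ dM → IsMvNDim N σ dN → dM = dN := by
  refine ⟨Pool.Agent.Y323.KK.d0, Pool.Agent.Y323.KK.d0_pos, ?_⟩
  intro H _ _ _ M N τ σ hM hN h dM dN hdM hdN
  exact Pool.Agent.Y323.KK.dims_eq hM hN h hdM hdN

end Pool.Agent.Results.MP_41729c_an.UniversalDistance
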